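import Mathlib
import Pool.Agent.H574R3.Fix.Final
import Pool.Agent.H574R3.Fix.EZ

/-!
# Equivariant K-theory is not the ring of invariant functions on the fixed point scheme

Let `G = B₂` be the group of upper triangular matrices in `SL₂` (principally paired by the identity
`φ = id : B₂ → G`), acting on `X = ℙ⁴ = ℙ(Sym⁴ ℂ²)`.  The nilpotent `e` is regular in `Lie G` and
its vector field on `X` has exactly one zero, so the action is regular.  We show that there is no
isomorphism `K⁰_G(X) ⊗ ℂ ≅ ℂ[Fix_G(X)]^G` of algebras over `ℂ[G]^G = ℂ[t, t⁻¹]`.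

The reason: the element `diag(i, -i)` fixes the plane `ℙ⟨e₀, e₂, e₄⟩` pointwise.  For
every equivariant bundle `E`, the characters `ρ_j(t)` of the torus on the fibres at `e₀, e₂, e₄`
satisfy `ρ₀'(i) - 2 ρ₂'(i) + ρ₄'(i) = 0`; invariant functions on `Fix` need not satisfy this.

* `KGrp` is the `ℂ`-vector space spanned by the `G`-equivariant algebraic vector bundles on `X` modulo
  short exact sequences, that is `K⁰_G(X) ⊗ ℂ`.  Its product is `[E] [F] = [E ⊗ F]`.
* `InvRing` is the algebra of `G`-invariant functions on the scheme `Fix_G(X)`, in terms of its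
  functor of points.
* The structure maps from `ℂ[G]^G = ℂ[t, t⁻¹]` send `t` to the class of the trivial line bundle on
  which `G` acts through the character `t` (`chiBundle`), and to the function `(g, x) ↦ t(g)` (`InvRing.t`).
-/

set_option autoImplicit false

open H574R3.Fix
open scoped LinearAlgebra.Projectivization

namespace Pool.Agent.Results.MP_182799_ag.NoIso

theorem result :
    -- `e` is regular in `Lie B₂`: its centraliser is the line spanned by `e`
    (∀ Z ∈ LieB2, Z * eMat = eMat * Z ↔ ∃ c : ℂ, Z = c • eMat) ∧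
    -- the vector field of `e` on `ℙ⁴` has exactly one zero
    (∃! x : P4, EZero x) ∧
    -- there is no isomorphism of algebras over `ℂ[t, t⁻¹]`
    ¬ ∃ Ψ : KGrp ≃ₗ[ℂ] InvRing,
      (∀ E F : EqBundle, Ψ (KGrp.cls (E.tensor F)) = Ψ (KGrp.cls E) * Ψ (KGrp.cls F)) ∧
      Ψ (KGrp.cls oneBundle) = 1 ∧ Ψ (KGrp.cls chiBundle) = InvRing.t :=
  ⟨fun Z hZ => e_regular Z hZ.1 hZ.2, ezero_unique, no_iso''⟩

end Pool.Agent.Results.MP_182799_ag.NoIso
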